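import Pool.Agent.Lib_helper13.Robin.Geo
import Pool.Agent.Lib_helper81.Robin.CA

/-! Robin project: block CA (proof by helper81), in the statement form used by the assembly. -/

namespace Pool.Agent.Lib_helper13.Robin

open MeasureTheory Set Metric Filter Topology
open scoped RealInnerProductSpace ContDiff

noncomputable section

variable {d m : ℕ} (P : PD d m)

section
variable {ι : Type} [Fintype ι] {T T' : ι → E d → ℝ}

/-- **CA.** the identity for `|T|²` -/
theorem pp_I {V : Set (E d)} (hV : IsOpen V) (h : PP P T V) {ψ : E d → ℝ}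
    (hψ : ContDiff ℝ 1 ψ) (hc : HasCompactSupport ψ) (hs : tsupport ψ ⊆ V) :
    ∫ x in P.Om, ⟪tg T x, gradient ψ x⟫ = - ∫ x in P.Om, ψ x * gsq T x := by
  first
    | exact Pool.Agent.Lib_helper81.Robin.pp_I P hV h hψ hc hs
    | exact Pool.Agent.Lib_helper81.Robin.pp_I hV h hψ hc hs
    | (apply Pool.Agent.Lib_helper81.Robin.pp_I <;> assumption)

/-- **CA.** Caccioppoli -/
theorem caccioppoli {V : Set (E d)} (hV : IsOpen V) (h : PP P T V) {ψ : E d → ℝ}
    (hψ : ContDiff ℝ 1 ψ) (hc : HasCompactSupport ψ) (hs : tsupport ψ ⊆ V) :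
    ∫ x in P.Om, ψ x ^ 2 * gsq T x ≤ 4 * ∫ x in P.Om, ‖gradient ψ x‖ ^ 2 * sq T x := by
  first
    | exact Pool.Agent.Lib_helper81.Robin.caccioppoli P hV h hψ hc hs
    | exact Pool.Agent.Lib_helper81.Robin.caccioppoli hV h hψ hc hs
    | (apply Pool.Agent.Lib_helper81.Robin.caccioppoli <;> assumption)

end

end

end Pool.Agent.Lib_helper13.Robin
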