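import Pool.Agent.Lib_helper13.Robin.Geo
import Pool.Agent.Lib_helper74.Robin.CU

/-! Robin project: block CU (proof by helper74), in the statement form used by the assembly. -/

namespace Pool.Agent.Lib_helper13.Robin

open MeasureTheory Set Metric Filter Topology
open scoped RealInnerProductSpace ContDiff

noncomputable section

variable {d m : ℕ} (P : PD d m)

section
variable {ι : Type} [Fintype ι] {T T' : ι → E d → ℝ}

/-- **CU.** cutoffs -/
theorem cutoff (q : E d) : ∃ C > 0, ∀ t > 0, ∃ χ : E d → ℝ, ContDiff ℝ ∞ χ ∧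
    (∀ x, 0 ≤ χ x ∧ χ x ≤ 1) ∧ (∀ x, P.rho q x ≤ t → χ x = 0) ∧
    (∀ x, 2 * t ≤ P.rho q x → χ x = 1) ∧ ∀ x, ‖gradient χ x‖ ≤ C / t := by
  first
    | exact Pool.Agent.Lib_helper74.Robin.cutoff P q
    | exact Pool.Agent.Lib_helper74.Robin.cutoff q
    | (apply Pool.Agent.Lib_helper74.Robin.cutoff <;> assumption)

/-- **CU.** logarithmic cutoffs -/
theorem logcut {q : E d} (hr : 2 ≤ P.rk q) (R : ℝ) : ∃ χ : ℕ → E d → ℝ,
    (∀ n, ContDiff ℝ ∞ (χ n) ∧ (∀ x, 0 ≤ χ n x ∧ χ n x ≤ 1) ∧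
      ∃ t > 0, ∀ x, P.rho q x < t → χ n x = 0) ∧
    (∀ x, P.rho q x ≠ 0 → Tendsto (fun n => χ n x) atTop (𝓝 1)) ∧
    Tendsto (fun n => ∫ x in ball q R, ‖gradient (χ n) x‖ ^ 2) atTop (𝓝 0) := by
  first
    | exact Pool.Agent.Lib_helper74.Robin.logcut P hr R
    | exact Pool.Agent.Lib_helper74.Robin.logcut hr R
    | (apply Pool.Agent.Lib_helper74.Robin.logcut <;> assumption)

end

end

end Pool.Agent.Lib_helper13.Robin
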