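import Pool.Agent.Lib_helper13.Robin.Geo
import Pool.Agent.Lib_helper58.Robin.MV

/-! Robin project: block MV (proof by helper58), in the statement form used by the assembly. -/

namespace Pool.Agent.Lib_helper13.Robin

open MeasureTheory Set Metric Filter Topology
open scoped RealInnerProductSpace ContDiff

noncomputable section

variable {d m : ℕ} (P : PD d m)

section
variable {ι : Type} [Fintype ι] {T T' : ι → E d → ℝ}

/-- **MV.** mean value formula in a conical ball -/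
theorem mv {p : E d} {R : ℝ} (hC : P.Con p R) (Q g : E d → ℝ)
    (hQ : ContDiffOn ℝ 1 Q (P.Om ∩ ball p R))
    (hQi : ∀ r < R, IntegrableOn Q (P.Om ∩ ball p r))
    (hQg : ∀ r < R, IntegrableOn (fun x => ‖gradient Q x‖) (P.Om ∩ ball p r))
    (hg : ∀ r < R, IntegrableOn g (P.Om ∩ ball p r))
    (heq : ∀ ψ : E d → ℝ, ContDiff ℝ 1 ψ → HasCompactSupport ψ → tsupport ψ ⊆ ball p R →
      ∫ x in P.Om, ⟪gradient Q x, gradient ψ x⟫ = - ∫ x in P.Om, ψ x * g x)
    {t1 t2 : ℝ} (h1 : 0 < t1) (h12 : t1 ≤ t2) (h2 : t2 < R) :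
    IntervalIntegrable (fun s => s ^ (1 - (d : ℤ)) * ∫ x in P.Om, g x * Th (s⁻¹ • (x - p)))
      volume t1 t2 ∧
    mm P Q p t2 - mm P Q p t1 =
      ∫ s in t1..t2, s ^ (1 - (d : ℤ)) * ∫ x in P.Om, g x * Th (s⁻¹ • (x - p)) := by
  first
    | exact Pool.Agent.Lib_helper58.Robin.mv P hC Q g hQ hQi hQg hg heq h1 h12 h2
    | exact Pool.Agent.Lib_helper58.Robin.mv hC Q g hQ hQi hQg hg heq h1 h12 h2
    | (apply Pool.Agent.Lib_helper58.Robin.mv <;> assumption)

end

end

end Pool.Agent.Lib_helper13.Robin
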