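import Pool.Agent.Lib_helper13.Robin.Geo
import Pool.Agent.Lib_helper13.Robin.NL

/-! Robin project: block NL (proof by helper13), in the statement form used by the assembly. -/

namespace Pool.Agent.Lib_helper13.Robin

open MeasureTheory Set Metric Filter Topology
open scoped RealInnerProductSpace ContDiff

noncomputable section

variable {d m : ℕ} (P : PD d m)

section
variable {ι : Type} [Fintype ι] {T T' : ι → E d → ℝ}

/-- **NL.** -/
theorem NH.mono {P : PD d m} {V V' : Set (E d)} {w : E d → ℝ} (h : NH P V w) (hV : V' ⊆ V) :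
    NH P V' w := by
  first
    | exact Pool.Agent.Lib_helper13.Robin.NLb.NH_mono h hV
    | (apply Pool.Agent.Lib_helper13.Robin.NLb.NH_mono <;> assumption)

/-- **NL.** -/
theorem NH.add {P : PD d m} {V : Set (E d)} {w w' : E d → ℝ} (hV : IsOpen V) (h : NH P V w)
    (h' : NH P V w') : NH P V (fun x => w x + w' x) := by
  first
    | exact Pool.Agent.Lib_helper13.Robin.NLb.NH_add hV h h'
    | (apply Pool.Agent.Lib_helper13.Robin.NLb.NH_add <;> assumption)

/-- **NL.** -/
theorem NH.const_mul {P : PD d m} {V : Set (E d)} {w : E d → ℝ} (hV : IsOpen V) (h : NH P V w)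
    (c : ℝ) : NH P V (fun x => c * w x) := by
  first
    | exact Pool.Agent.Lib_helper13.Robin.NLb.NH_const_mul hV h c
    | (apply Pool.Agent.Lib_helper13.Robin.NLb.NH_const_mul <;> assumption)

/-- **NL.** affine functions with tangential gradient -/
theorem nh_affine {p : E d} {R : ℝ} (hC : P.Con p R) {a : E d} (ha : a ∈ (P.N p)ᗮ) (c : ℝ) :
    NH P (ball p R) (fun x => c + ⟪a, x - p⟫) := by
  first
    | exact Pool.Agent.Lib_helper13.Robin.NLb.nh_affine P hC ha c
    | exact Pool.Agent.Lib_helper13.Robin.NLb.nh_affine hC ha c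
    | (apply Pool.Agent.Lib_helper13.Robin.NLb.nh_affine <;> assumption)

/-- **NL.** tangential translations -/
theorem nh_translate {p s : E d} {R : ℝ} (hC : P.Con p R) {w : E d → ℝ}
    (h : NH P (ball p R) w) (hs : s ∈ (P.N p)ᗮ) (hsR : ‖s‖ < R) :
    NH P (ball p (R - ‖s‖)) (fun x => w (x + s)) := by
  first
    | exact Pool.Agent.Lib_helper13.Robin.NLb.nh_translate P hC h hs hsR
    | exact Pool.Agent.Lib_helper13.Robin.NLb.nh_translate hC h hs hsR
    | (apply Pool.Agent.Lib_helper13.Robin.NLb.nh_translate <;> assumption)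

end

end

end Pool.Agent.Lib_helper13.Robin
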