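import Pool.Agent.Lib_helper13.Robin.Geo
import Pool.Agent.Lib_helper81.Robin.PL

/-! Robin project: block PL (proof by helper81), in the statement form used by the assembly. -/

namespace Pool.Agent.Lib_helper13.Robin

open MeasureTheory Set Metric Filter Topology
open scoped RealInnerProductSpace ContDiff

noncomputable section

variable {d m : ℕ} (P : PD d m)

section
variable {ι : Type} [Fintype ι] {T T' : ι → E d → ℝ}

/-- **PL.** -/
theorem PP.mono {P : PD d m} {V V' : Set (E d)} (h : PP P T V) (hV : V' ⊆ V) : PP P T V' := by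
  first
    | exact Pool.Agent.Lib_helper81.Robin.PP.mono h hV
    | (apply Pool.Agent.Lib_helper81.Robin.PP.mono <;> assumption)

/-- **PL.** -/
theorem PP.congr {P : PD d m} {V : Set (E d)} (hV : IsOpen V) (h : PP P T V)
    (hT : ∀ i, ∀ x ∈ P.Om ∩ V, T' i x = T i x) : PP P T' V := by
  first
    | exact Pool.Agent.Lib_helper81.Robin.PP.congr hV h hT
    | (apply Pool.Agent.Lib_helper81.Robin.PP.congr <;> assumption)

/-- **PL.** -/
theorem EF.mono {P : PD d m} {V V' : Set (E d)} (h : EF P T V) (hV' : IsOpen V') (hV : V' ⊆ V) :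
    EF P T V' := by
  first
    | exact Pool.Agent.Lib_helper81.Robin.EF.mono h hV' hV
    | (apply Pool.Agent.Lib_helper81.Robin.EF.mono <;> assumption)

end

end

end Pool.Agent.Lib_helper13.Robin
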