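import Pool.Agent.Lib_helper13.Robin.Geo
import Pool.Agent.Lib_helper59.Robin.MF

/-! Robin project: block MF (proof by helper59), in the statement form used by the assembly. -/

namespace Pool.Agent.Lib_helper13.Robin

open MeasureTheory Set Metric Filter Topology
open scoped RealInnerProductSpace ContDiff

noncomputable section

variable {d m : ℕ} (P : PD d m)

section
variable {ι : Type} [Fintype ι] {T T' : ι → E d → ℝ}

/-- **MF.** monotonicity for `|T|²` from the flux identity (`δ → ∞`) -/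
theorem mm_mono_of_flux {p : E d} {R : ℝ} (hC : P.Con p R)
    (hs : ∀ i, ContDiffOn ℝ ∞ (T i) (P.Om ∩ ball p R))
    (h1 : ∀ K ⊆ ball p R, IsCompact K → IntegrableOn (sq T) (P.Om ∩ K))
    (h2 : ∀ K ⊆ ball p R, IsCompact K → IntegrableOn (fun x => Real.sqrt (gsq T x)) (P.Om ∩ K))
    (h3 : ∀ δ > 0, ∀ K ⊆ ball p R, IsCompact K → IntegrableOn (eG δ T) (P.Om ∩ K))
    (h4 : ∀ δ > 0, ∀ ψ : E d → ℝ, ContDiff ℝ 1 ψ → HasCompactSupport ψ →
      tsupport ψ ⊆ ball p R →
      ∫ x in P.Om, ⟪gG δ T x, gradient ψ x⟫ = - ∫ x in P.Om, ψ x * eG δ T x)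
    {t1 t2 : ℝ} (ht1 : 0 < t1) (ht : t1 ≤ t2) (ht2 : t2 < R) :
    mm P (sq T) p t1 ≤ mm P (sq T) p t2 := by
  first
    | exact Pool.Agent.Lib_helper59.Robin.mm_mono_of_flux P hC hs h1 h2 h3 h4 ht1 ht ht2
    | exact Pool.Agent.Lib_helper59.Robin.mm_mono_of_flux hC hs h1 h2 h3 h4 ht1 ht ht2
    | (apply Pool.Agent.Lib_helper59.Robin.mm_mono_of_flux <;> assumption)

end

end

end Pool.Agent.Lib_helper13.Robin
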