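import Pool.Agent.Lib_helper13.Robin.Geo
import Pool.Agent.Lib_helper74.Robin.TE

/-! Robin project: block TE (proof by helper74), in the statement form used by the assembly. -/

namespace Pool.Agent.Lib_helper13.Robin

open MeasureTheory Set Metric Filter Topology
open scoped RealInnerProductSpace ContDiff

noncomputable section

variable {d m : ℕ} (P : PD d m)

section
variable {ι : Type} [Fintype ι] {T T' : ι → E d → ℝ}

/-- **TE.** tube estimate from monotonicity along the stratum -/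
theorem tube_est {q : E d} {R : ℝ} (hC : P.Con q R) (Q : E d → ℝ) (hQ0 : ∀ x, 0 ≤ Q x)
    (hQ : ∀ K ⊆ ball q R, IsCompact K → IntegrableOn Q (P.Om ∩ K))
    (hmono : ∀ s ∈ (P.N q)ᗮ, ‖s‖ < R → ∀ t1 t2, 0 < t1 → t1 ≤ t2 → t2 < R - ‖s‖ →
      mm P Q (q + s) t1 ≤ mm P Q (q + s) t2)
    {r : ℝ} (hr : r < R) :
    ∃ C > 0, ∀ t > 0, ∫ x in P.Om ∩ (ball q r ∩ {x | P.rho q x < t}), Q x ≤ C * t ^ P.rk q := by
  first
    | exact Pool.Agent.Lib_helper74.Robin.tube_est P hC Q hQ0 hQ hmono hr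
    | exact Pool.Agent.Lib_helper74.Robin.tube_est hC Q hQ0 hQ hmono hr
    | (apply Pool.Agent.Lib_helper74.Robin.tube_est <;> assumption)

end

end

end Pool.Agent.Lib_helper13.Robin
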