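import Pool.Agent.Lib_helper13.Robin.Geo
import Pool.Agent.Lib_helper74.Robin.TU

/-! Robin project: block TU (proof by helper74), in the statement form used by the assembly. -/

namespace Pool.Agent.Lib_helper13.Robin

open MeasureTheory Set Metric Filter Topology
open scoped RealInnerProductSpace ContDiff

noncomputable section

variable {d m : ℕ} (P : PD d m)

section
variable {ι : Type} [Fintype ι] {T T' : ι → E d → ℝ}

/-- **TU.** volume of tubes -/
theorem tube_vol {q : E d} (R : ℝ) : ∃ C > 0, ∀ t > 0,
    (volume (ball q R ∩ {x | P.rho q x < t})).toReal ≤ C * t ^ P.rk q := by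
  first
    | exact Pool.Agent.Lib_helper74.Robin.tube_vol P R
    | exact Pool.Agent.Lib_helper74.Robin.tube_vol R
    | (apply Pool.Agent.Lib_helper74.Robin.tube_vol <;> assumption)

/-- **TU.** -/
theorem rho_inv_int {q : E d} (hr : 2 ≤ P.rk q) (R : ℝ) :
    IntegrableOn (fun x => (P.rho q x)⁻¹) (ball q R) := by
  first
    | exact Pool.Agent.Lib_helper74.Robin.rho_inv_int P hr R
    | exact Pool.Agent.Lib_helper74.Robin.rho_inv_int hr R
    | (apply Pool.Agent.Lib_helper74.Robin.rho_inv_int <;> assumption)

end

end

end Pool.Agent.Lib_helper13.Robin
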