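import Pool.Agent.Lib_helper13.Robin.Geo
import Pool.Agent.Lib_helper81.Robin.CO

/-! Robin project: block CO (proof by helper81), in the statement form used by the assembly. -/

namespace Pool.Agent.Lib_helper13.Robin

open MeasureTheory Set Metric Filter Topology
open scoped RealInnerProductSpace ContDiff

noncomputable section

variable {d m : ℕ} (P : PD d m)

section
variable {ι : Type} [Fintype ι] {T T' : ι → E d → ℝ}

/-- **CO.** removal of strata of codimension ≥ 3 -/
theorem pp_corner {q : E d} {R : ℝ} (hC : P.Con q R) (hr : 3 ≤ P.rk q)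
    (h : PP P T (ball q R \ {x | P.rho q x = 0}))
    (hw : IntegrableOn (fun x => (P.rho q x)⁻¹ * sq T x) (P.Om ∩ ball q R)) :
    PP P T (ball q R) := by
  first
    | exact Pool.Agent.Lib_helper81.Robin.pp_corner P hC hr h hw
    | exact Pool.Agent.Lib_helper81.Robin.pp_corner hC hr h hw
    | (apply Pool.Agent.Lib_helper81.Robin.pp_corner <;> assumption)

end

end

end Pool.Agent.Lib_helper13.Robin
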