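import Pool.Agent.Lib_helper13.Robin.Geo
import Pool.Agent.Lib_helper6.Robin.DI

/-! Robin project: block DI (proof by helper6), in the statement form used by the assembly. -/

namespace Pool.Agent.Lib_helper13.Robin

open MeasureTheory Set Metric Filter Topology
open scoped RealInnerProductSpace ContDiff

noncomputable section

variable {d m : ℕ} (P : PD d m)

section
variable {ι : Type} [Fintype ι] {T T' : ι → E d → ℝ}

/-- **DI.** dilation approximation of test functions -/
theorem dilation {V : Set (E d)} (hV : IsOpen V) (F : E d → E d)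
    (hFm : AEStronglyMeasurable F (volume.restrict P.Om))
    (hF : IntegrableOn (fun x => ‖F x‖ ^ 2) P.Om)
    (h : ∀ φ : E d → ℝ, ContinuousOn φ P.cl → ContDiffOn ℝ 1 φ P.Om →
      IntegrableOn (fun x => ‖gradient φ x‖ ^ 2) P.Om →
      (∃ K ⊆ V, IsCompact K ∧ ∀ x ∈ P.Om, x ∉ K → φ x = 0) →
      ∫ x in P.Om, ⟪F x, gradient φ x⟫ = 0) :
    ∀ φ, Adm P V φ → ∫ x in P.Om, ⟪F x, gradient φ x⟫ = 0 := by
  first
    | exact Pool.Agent.Lib_helper6.Robin.dilation P hV F hFm hF h
    | exact Pool.Agent.Lib_helper6.Robin.dilation hV F hFm hF h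
    | (apply Pool.Agent.Lib_helper6.Robin.dilation <;> assumption)

end

end

end Pool.Agent.Lib_helper13.Robin
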