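import Pool.Agent.Lib_helper13.Robin.Geo
import Pool.Agent.Lib_helper61.Robin.EN

/-! Robin project: block EN (proof by helper61), in the statement form used by the assembly. -/

namespace Pool.Agent.Lib_helper13.Robin

open MeasureTheory Set Metric Filter Topology
open scoped RealInnerProductSpace ContDiff

noncomputable section

variable {d m : ℕ} (P : PD d m)

section
variable {ι : Type} [Fintype ι] {T T' : ι → E d → ℝ}

/-- **EN.** energy estimates for normalised ground states -/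
theorem energy : ∃ a1 > 0, ∃ C > 0,
    (∀ (α lam : ℝ) (u : E d → ℝ), 0 < α → α < a1 → RGS P.Om α lam u →
      ∫ x in P.Om, u x = P.vol →
      ∫ x in P.Om, ‖gradient u x‖ ^ 2 ≤ C * α ^ 2 ∧ ∫ x in P.Om, (u x - 1) ^ 2 ≤ C * α ^ 2 ∧
      P.bdI (fun x => (u x - 1) ^ 2) ≤ C * α ^ 2 ∧ |lam - P.mu * α| ≤ C * α ^ 2) ∧
    (∀ (α α' lam lam' : ℝ) (u u' : E d → ℝ), 0 < α → α < a1 → 0 < α' → α' < a1 →
      RGS P.Om α lam u → RGS P.Om α' lam' u' →
      ∫ x in P.Om, u x = P.vol → ∫ x in P.Om, u' x = P.vol →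
      ∫ x in P.Om, ‖α⁻¹ • gradient u x - α'⁻¹ • gradient u' x‖ ^ 2 ≤ C * (α + α') ∧
      ∫ x in P.Om, (α⁻¹ * (u x - 1) - α'⁻¹ * (u' x - 1)) ^ 2 ≤ C * (α + α')) := by
  first
    | exact Pool.Agent.Lib_helper61.Robin.energy P
    | exact Pool.Agent.Lib_helper61.Robin.energy
    | (apply Pool.Agent.Lib_helper61.Robin.energy <;> assumption)

end

end

end Pool.Agent.Lib_helper13.Robin
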