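import Pool.Agent.Lib_helper13.Robin.Geo
import Pool.Agent.Lib_helper50.Robin.WE

/-! Robin project: block WE (proof by helper50), in the statement form used by the assembly. -/

namespace Pool.Agent.Lib_helper13.Robin

open MeasureTheory Set Metric Filter Topology
open scoped RealInnerProductSpace ContDiff

noncomputable section

variable {d m : ℕ} (P : PD d m)

section
variable {ι : Type} [Fintype ι] {T T' : ι → E d → ℝ}

/-- **WE.** Weyl's lemma -/
theorem weyl (hd : 0 < d) {U : Set (E d)} (hU : IsOpen U) (f : E d → ℝ)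
    (hf : LocallyIntegrableOn f U)
    (h : ∀ φ : E d → ℝ, ContDiff ℝ ∞ φ → HasCompactSupport φ → tsupport φ ⊆ U →
      ∫ x, f x * lap φ x = 0) :
    ∃ g : E d → ℝ, ContDiffOn ℝ ∞ g U ∧ (∀ x ∈ U, lap g x = 0) ∧
      ∀ᵐ x ∂(volume.restrict U), g x = f x := by
  first
    | exact Pool.Agent.Lib_helper50.Robin.weyl hd hU f hf h
    | (apply Pool.Agent.Lib_helper50.Robin.weyl <;> assumption)

end

end

end Pool.Agent.Lib_helper13.Robin
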