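import Pool.Agent.Lib_helper13.Robin.Geo
import Pool.Agent.Lib_helper47.Robin.RE

/-! Robin project: block RE (proof by helper47), in the statement form used by the assembly. -/

namespace Pool.Agent.Lib_helper13.Robin

open MeasureTheory Set Metric Filter Topology
open scoped RealInnerProductSpace ContDiff

noncomputable section

variable {d m : ℕ} (P : PD d m)

section
variable {ι : Type} [Fintype ι] {T T' : ι → E d → ℝ}

/-- **RE.** even reflection across a facet -/
theorem refl_ext {q : E d} {i : Fin m} {R : ℝ} {w : E d → ℝ} (hC : P.Con q R) (hA : P.A q = {i})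
    (h : NH P (ball q R) w) :
    ∃ w' : E d → ℝ, ContDiffOn ℝ ∞ w' (ball q R) ∧ (∀ x ∈ ball q R, lap w' x = 0) ∧
      (∀ x ∈ P.Om ∩ ball q R, w' x = w x) ∧ ∀ x ∈ ball q R, w' (P.refl i x) = w' x := by
  first
    | exact Pool.Agent.Lib_helper47.Robin.refl_ext P hC hA h
    | exact Pool.Agent.Lib_helper47.Robin.refl_ext hC hA h
    | (apply Pool.Agent.Lib_helper47.Robin.refl_ext <;> assumption)

end

end

end Pool.Agent.Lib_helper13.Robin
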