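import Pool.Agent.Lib_helper13.Robin.Geo
import Pool.Agent.Lib_helper13.Robin.ET

/-! Robin project: block ET (proof by helper13), in the statement form used by the assembly. -/

namespace Pool.Agent.Lib_helper13.Robin

open MeasureTheory Set Metric Filter Topology
open scoped RealInnerProductSpace ContDiff

noncomputable section

variable {d m : ℕ} (P : PD d m)

section
variable {ι : Type} [Fintype ι] {T T' : ι → E d → ℝ}

/-- **ET.** -/
theorem ef_T1 {V : Set (E d)} {w : E d → ℝ} (hV : IsOpen V) (h : NH P V w) :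
    EF P (T1 w) V := by
  first
    | exact Pool.Agent.Lib_helper13.Robin.ET.ef_T1 P hV h
    | exact Pool.Agent.Lib_helper13.Robin.ET.ef_T1 hV h
    | (apply Pool.Agent.Lib_helper13.Robin.ET.ef_T1 <;> assumption)

/-- **ET.** -/
theorem ef_T2 {V : Set (E d)} {w : E d → ℝ} (hV : IsOpen V) (h : NH P V w) :
    EF P (T2 w) V := by
  first
    | exact Pool.Agent.Lib_helper13.Robin.ET.ef_T2 P hV h
    | exact Pool.Agent.Lib_helper13.Robin.ET.ef_T2 hV h
    | (apply Pool.Agent.Lib_helper13.Robin.ET.ef_T2 <;> assumption)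

end

end

end Pool.Agent.Lib_helper13.Robin
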