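import Pool.Agent.Lib_helper13.Robin.Geo
import Pool.Agent.Lib_helper50.Robin.IE

/-! Robin project: block IE (proof by helper50), in the statement form used by the assembly. -/

namespace Pool.Agent.Lib_helper13.Robin

open MeasureTheory Set Metric Filter Topology
open scoped RealInnerProductSpace ContDiff

noncomputable section

variable {d m : ℕ} (P : PD d m)

section
variable {ι : Type} [Fintype ι] {T T' : ι → E d → ℝ}

/-- **IE.** interior derivative estimates -/
theorem interior_est (d : ℕ) (hd : 0 < d) : ∃ C > 0, ∀ (f : E d → ℝ) (x : E d) (r M : ℝ), 0 < r →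
    ContDiffOn ℝ ∞ f (ball x r) → (∀ y ∈ ball x r, lap f y = 0) →
    (∀ y ∈ ball x r, |f y| ≤ M) →
    ‖gradient f x‖ ≤ C * M / r ∧ ∀ j k, |pd (bv k) (pd (bv j) f) x| ≤ C * M / r ^ 2 := by
  first
    | exact Pool.Agent.Lib_helper50.Robin.interior_est d hd
    | (apply Pool.Agent.Lib_helper50.Robin.interior_est <;> assumption)

end

end

end Pool.Agent.Lib_helper13.Robin
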