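import Pool.Agent.Lib_helper13.Robin.Geo
import Pool.Agent.Lib_helper70.Robin.LA

/-! Robin project: block LA (proof by helper70), in the statement form used by the assembly. -/

namespace Pool.Agent.Lib_helper13.Robin

open MeasureTheory Set Metric Filter Topology
open scoped RealInnerProductSpace ContDiff

noncomputable section

variable {d m : ℕ} (P : PD d m)

section
variable {ι : Type} [Fintype ι] {T T' : ι → E d → ℝ}

/-- **LA.** the Laplacian in any orthonormal basis -/
theorem lap_onb {w : E d → ℝ} {x : E d} (hw : ContDiffAt ℝ 2 w x)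
    {κ : Type} [Fintype κ] (b : OrthonormalBasis κ ℝ (E d)) :
    lap w x = ∑ k, pd (b k) (pd (b k) w) x := by
  first
    | exact Pool.Agent.Lib_helper70.Robin.lap_onb hw b
    | (apply Pool.Agent.Lib_helper70.Robin.lap_onb <;> assumption)

/-- **LA.** -/
theorem lap_frame {p : E d} {i j : Fin m} {e1 e2 : E d} {om : ℝ} (hF : Frame P p i j e1 e2 om)
    {κ : Type} [Fintype κ] (b : OrthonormalBasis κ ℝ (P.N p)ᗮ) {w : E d → ℝ} {x : E d}
    (hw : ContDiffAt ℝ 2 w x) :
    lap w x = pd e1 (pd e1 w) x + pd e2 (pd e2 w) x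
      + ∑ k, pd (b k : E d) (pd (b k : E d) w) x := by
  first
    | exact Pool.Agent.Lib_helper70.Robin.lap_frame P hF b hw
    | exact Pool.Agent.Lib_helper70.Robin.lap_frame hF b hw
    | (apply Pool.Agent.Lib_helper70.Robin.lap_frame <;> assumption)

end

end

end Pool.Agent.Lib_helper13.Robin
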