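import Pool.Agent.Lib_helper13.Robin.Geo
import Pool.Agent.Lib_helper13.Robin.LG

/-! Robin project: block LG (proof by helper13), in the statement form used by the assembly. -/

namespace Pool.Agent.Lib_helper13.Robin

open MeasureTheory Set Metric Filter Topology
open scoped RealInnerProductSpace ContDiff

noncomputable section

variable {d m : ℕ} (P : PD d m)

section
variable {ι : Type} [Fintype ι] {T T' : ι → E d → ℝ}

/-- **LG.** the property 𝒫 is local -/
theorem pp_of_local {V : Set (E d)} (hV : IsOpen V)
    (h : ∀ q ∈ V, q ∈ P.cl → ∃ r > 0, PP P T (ball q r)) : PP P T V := by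
  first
    | exact Pool.Agent.Lib_helper13.Robin.LGb.pp_of_local P hV h
    | exact Pool.Agent.Lib_helper13.Robin.LGb.pp_of_local hV h
    | (apply Pool.Agent.Lib_helper13.Robin.LGb.pp_of_local <;> assumption)

end

end

end Pool.Agent.Lib_helper13.Robin
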