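import Pool.Agent.Lib_helper13.Robin.Geo
import Pool.Agent.Lib_helper61.Robin.LI

/-! Robin project: block LI (proof by helper61), in the statement form used by the assembly. -/

namespace Pool.Agent.Lib_helper13.Robin

open MeasureTheory Set Metric Filter Topology
open scoped RealInnerProductSpace ContDiff

noncomputable section

variable {d m : ℕ} (P : PD d m)

section
variable {ι : Type} [Fintype ι] {T T' : ι → E d → ℝ}

/-- **LI.** `L²` limits -/
theorem limit_pair (α lam : ℕ → ℝ) (u : ℕ → E d → ℝ) (hα : ∀ n, 0 < α n)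
    (hα0 : Tendsto α atTop (𝓝 0)) (hu : ∀ n, RGS P.Om (α n) (lam n) (u n))
    (hn : ∀ n, ∫ x in P.Om, u n x = P.vol) :
    ∃ (V : E d → ℝ) (D : E d → E d) (k : ℕ → ℕ), StrictMono k ∧
      MemLp V 2 (volume.restrict P.Om) ∧ MemLp D 2 (volume.restrict P.Om) ∧
      (∀ᵐ x ∂(volume.restrict P.Om),
        Tendsto (fun n => (u (k n) x - 1) / α (k n)) atTop (𝓝 (V x))) ∧
      (∀ φ : E d → ℝ, ContinuousOn φ P.cl → ContDiffOn ℝ 1 φ P.Om →
        IntegrableOn (fun x => ‖gradient φ x‖ ^ 2) P.Om →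
        ∫ x in P.Om, ⟪D x, gradient φ x⟫ = P.mu * (∫ x in P.Om, φ x) - P.bdI φ) ∧
      (∀ φ : E d → ℝ, ContDiff ℝ ∞ φ → HasCompactSupport φ → tsupport φ ⊆ P.Om → ∀ e : E d,
        ∫ x in P.Om, V x * pd e φ x = - ∫ x in P.Om, ⟪D x, e⟫ * φ x) := by
  first
    | exact Pool.Agent.Lib_helper61.Robin.limit_pair P α lam u hα hα0 hu hn
    | exact Pool.Agent.Lib_helper61.Robin.limit_pair α lam u hα hα0 hu hn
    | (apply Pool.Agent.Lib_helper61.Robin.limit_pair <;> assumption)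

end

end

end Pool.Agent.Lib_helper13.Robin
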