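import Pool.Agent.Lib_helper13.Robin.Geo
import Pool.Agent.Lib_helper50.Robin.MK

/-! Robin project: block MK (proof by helper50), in the statement form used by the assembly. -/

namespace Pool.Agent.Lib_helper13.Robin

open MeasureTheory Set Metric Filter Topology
open scoped RealInnerProductSpace ContDiff

noncomputable section

variable {d m : ℕ} (P : PD d m)

section
variable {ι : Type} [Fintype ι] {T T' : ι → E d → ℝ}

/-- **MK.** a smooth radial kernel with the mean value property -/
theorem exists_kernel (d : ℕ) (hd : 0 < d) : ∃ η : E d → ℝ, ContDiff ℝ ∞ η ∧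
    tsupport η ⊆ closedBall 0 1 ∧ (∀ z, 0 ≤ η z) ∧ ∫ z, η z = 1 ∧
    ∀ (f : E d → ℝ) (x : E d) (r t : ℝ), 0 < t → t < r → ContDiffOn ℝ ∞ f (ball x r) →
      (∀ y ∈ ball x r, lap f y = 0) → ∫ z, f (x + t • z) * η z = f x := by
  first
    | exact Pool.Agent.Lib_helper50.Robin.exists_kernel d hd
    | (apply Pool.Agent.Lib_helper50.Robin.exists_kernel <;> assumption)

end

end

end Pool.Agent.Lib_helper13.Robin
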