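import Pool.Agent.Lib_helper13.Robin.Geo
import Pool.Agent.Lib_helper59.Robin.MF

/-! Robin project: block MS (proof by helper59), in the statement form used by the assembly. -/

namespace Pool.Agent.Lib_helper13.Robin

open MeasureTheory Set Metric Filter Topology
open scoped RealInnerProductSpace ContDiff

noncomputable section

variable {d m : ℕ} (P : PD d m)

section
variable {ι : Type} [Fintype ι] {T T' : ι → E d → ℝ}

/-- **MS.** -/
theorem mm_sq {p : E d} {R : ℝ} (hC : P.Con p R) (h : PP P T (ball p R))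
    {t1 t2 : ℝ} (h1 : 0 < t1) (h12 : t1 ≤ t2) (h2 : t2 < R) :
    IntervalIntegrable (fun s => s ^ (1 - (d : ℤ)) *
      ∫ x in P.Om, (2 * gsq T x) * Th (s⁻¹ • (x - p))) volume t1 t2 ∧
    mm P (sq T) p t2 - mm P (sq T) p t1 =
      ∫ s in t1..t2, s ^ (1 - (d : ℤ)) * ∫ x in P.Om, (2 * gsq T x) * Th (s⁻¹ • (x - p)) := by
  first
    | exact Pool.Agent.Lib_helper59.Robin.mm_sq P hC h h1 h12 h2
    | exact Pool.Agent.Lib_helper59.Robin.mm_sq hC h h1 h12 h2
    | (apply Pool.Agent.Lib_helper59.Robin.mm_sq <;> assumption)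

end

end

end Pool.Agent.Lib_helper13.Robin
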