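import Pool.Agent.Lib_helper13.Robin.Geo
import Pool.Agent.Lib_helper81.Robin.NP

/-! Robin project: block NP (proof by helper81), in the statement form used by the assembly. -/

namespace Pool.Agent.Lib_helper13.Robin

open MeasureTheory Set Metric Filter Topology
open scoped RealInnerProductSpace ContDiff

noncomputable section

variable {d m : ℕ} (P : PD d m)

section
variable {ι : Type} [Fintype ι] {T T' : ι → E d → ℝ}

/-- **NP.** -/
theorem nh_pp {V : Set (E d)} {w : E d → ℝ} (hV : IsOpen V) (h : NH P V w) :
    PP P (fun _ : Unit => w) V := by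
  first
    | exact Pool.Agent.Lib_helper81.Robin.nh_pp P hV h
    | exact Pool.Agent.Lib_helper81.Robin.nh_pp hV h
    | (apply Pool.Agent.Lib_helper81.Robin.nh_pp <;> assumption)

end

end

end Pool.Agent.Lib_helper13.Robin
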