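import Pool.Agent.Lib_helper13.Robin.Geo
import Pool.Agent.Lib_helper82.Robin.S1

/-! Robin project: block S1 (proof by helper82), in the statement form used by the assembly. -/

namespace Pool.Agent.Lib_helper13.Robin

open MeasureTheory Set Metric Filter Topology
open scoped RealInnerProductSpace ContDiff

noncomputable section

variable {d m : ℕ} (P : PD d m)

section
variable {ι : Type} [Fintype ι] {T T' : ι → E d → ℝ}

/-- **S1.** Facet integrals as integrals over the hyperplane. -/
theorem fi_eq (i : Fin m) (f : E d → ℝ) :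
    P.fi i f = ∫ y : (ℝ ∙ P.ν i)ᗮ, (P.Sig i).indicator f ((y : E d) + P.b i • P.ν i) := by
  first
    | exact Pool.Agent.Lib_helper82.Robin.fi_eq P i f
    | exact Pool.Agent.Lib_helper82.Robin.fi_eq i f
    | (apply Pool.Agent.Lib_helper82.Robin.fi_eq <;> assumption)

/-- **S1.** -/
theorem Sig_lt_top (i : Fin m) : μHE[d - 1] (P.Sig i) < ⊤ := by
  first
    | exact Pool.Agent.Lib_helper82.Robin.Sig_lt_top P i
    | exact Pool.Agent.Lib_helper82.Robin.Sig_lt_top i
    | (apply Pool.Agent.Lib_helper82.Robin.Sig_lt_top <;> assumption)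

/-- **S1.** two different facets overlap in a null set -/
theorem Sig_inter (i j : Fin m) (h : i ≠ j) :
    volume {y : (ℝ ∙ P.ν i)ᗮ | (y : E d) + P.b i • P.ν i ∈ P.Sig i ∩ P.Sig j} = 0 ∧
    μHE[d - 1] (P.Sig i ∩ P.Sig j) = 0 := by
  first
    | exact Pool.Agent.Lib_helper82.Robin.Sig_inter P i j h
    | exact Pool.Agent.Lib_helper82.Robin.Sig_inter i j h
    | (apply Pool.Agent.Lib_helper82.Robin.Sig_inter <;> assumption)

/-- **S1.** -/
theorem bdI_eq (f : E d → ℝ) (hf : ContinuousOn f P.cl) : P.bdI f = ∑ i, P.fi i f := by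
  first
    | exact Pool.Agent.Lib_helper82.Robin.bdI_eq P f hf
    | exact Pool.Agent.Lib_helper82.Robin.bdI_eq f hf
    | (apply Pool.Agent.Lib_helper82.Robin.bdI_eq <;> assumption)

end

end

end Pool.Agent.Lib_helper13.Robin
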