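import Pool.Agent.Lib_helper13.Robin.Geo
import Pool.Agent.Lib_helper82.Robin.S2

/-! Robin project: block S2 (proof by helper82), in the statement form used by the assembly. -/

namespace Pool.Agent.Lib_helper13.Robin

open MeasureTheory Set Metric Filter Topology
open scoped RealInnerProductSpace ContDiff

noncomputable section

variable {d m : ℕ} (P : PD d m)

section
variable {ι : Type} [Fintype ι] {T T' : ι → E d → ℝ}

/-- **S2.** Gauss-Green -/
theorem gg (f : E d → ℝ) (hf : ContinuousOn f P.cl) (hf1 : ContDiffOn ℝ 1 f P.Om)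
    (hg : IntegrableOn (fun x => ‖gradient f x‖) P.Om) (e : E d) :
    ∫ x in P.Om, pd e f x = ∑ i, ⟪P.ν i, e⟫ * P.fi i f := by
  first
    | exact Pool.Agent.Lib_helper82.Robin.gg P f hf hf1 hg e
    | exact Pool.Agent.Lib_helper82.Robin.gg f hf hf1 hg e
    | (apply Pool.Agent.Lib_helper82.Robin.gg <;> assumption)

end

end

end Pool.Agent.Lib_helper13.Robin
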