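import Pool.Agent.Lib_helper13.Robin.Geo
import Pool.Agent.Lib_helper22.Robin.NV

/-! Robin project: block NV (proof by helper22), in the statement form used by the assembly. -/

namespace Pool.Agent.Lib_helper13.Robin

open MeasureTheory Set Metric Filter Topology
open scoped RealInnerProductSpace ContDiff

noncomputable section

variable {d m : ℕ} (P : PD d m)

section
variable {ι : Type} [Fintype ι] {T T' : ι → E d → ℝ}

/-- **NV.** the local functions `w_p` are Neumann-harmonic -/
theorem nh_of_lv {v : E d → ℝ} (h : LV P v) {p γ : E d} {R : ℝ} (hC : P.Con p R)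
    (hγ : ∀ i ∈ P.A p, ⟪P.ν i, γ⟫ = -1) : NH P (ball p R) (wp P v p γ) := by
  first
    | exact Pool.Agent.Lib_helper22.Robin.nh_of_lv P h hC hγ
    | exact Pool.Agent.Lib_helper22.Robin.nh_of_lv h hC hγ
    | (apply Pool.Agent.Lib_helper22.Robin.nh_of_lv <;> assumption)

end

end

end Pool.Agent.Lib_helper13.Robin
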