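import Pool.Agent.Lib_helper13.Robin.Geo
import Pool.Agent.Lib_helper6.Robin.PO

/-! Robin project: block PO (proof by helper6), in the statement form used by the assembly. -/

namespace Pool.Agent.Lib_helper13.Robin

open MeasureTheory Set Metric Filter Topology
open scoped RealInnerProductSpace ContDiff

noncomputable section

variable {d m : ℕ} (P : PD d m)

section
variable {ι : Type} [Fintype ι] {T T' : ι → E d → ℝ}

/-- **PO.** Poincare inequality on the convex domain -/
theorem poincare : ∃ C > 0, ∀ f : E d → ℝ, ContDiffOn ℝ 1 f P.Om →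
    IntegrableOn (fun x => f x ^ 2) P.Om → IntegrableOn (fun x => ‖gradient f x‖ ^ 2) P.Om →
    ∫ x in P.Om, f x = 0 → ∫ x in P.Om, f x ^ 2 ≤ C * ∫ x in P.Om, ‖gradient f x‖ ^ 2 := by
  first
    | exact Pool.Agent.Lib_helper6.Robin.poincare P
    | exact Pool.Agent.Lib_helper6.Robin.poincare
    | (apply Pool.Agent.Lib_helper6.Robin.poincare <;> assumption)

end

end

end Pool.Agent.Lib_helper13.Robin
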