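import Pool.Agent.Lib_helper13.Robin.Geo
import Pool.Agent.Lib_helper22.Robin.Q2

/-! Robin project: block Q2 (proof by helper22), in the statement form used by the assembly. -/

namespace Pool.Agent.Lib_helper13.Robin

open MeasureTheory Set Metric Filter Topology
open scoped RealInnerProductSpace ContDiff

noncomputable section

variable {d m : ℕ} (P : PD d m)

section
variable {ι : Type} [Fintype ι] {T T' : ι → E d → ℝ}

/-- **Q2.** -/
theorem facet_normal {v : E d → ℝ} (hv : LV P v) {c : ℝ} {g : E d} {M : E d →ₗ[ℝ] E d}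
    (hM : M.IsSymmetric) (hq : ∀ x ∈ P.Om, v x = c + ⟪g, x⟫ - (1 / 2) * ⟪M x, x⟫)
    {q : E d} {i : Fin m} (hqc : q ∈ P.cl) (hA : P.A q = {i}) : ⟪P.ν i, g - M q⟫ = -1 := by
  first
    | exact Pool.Agent.Lib_helper22.Robin.facet_normal P hv hM hq hqc hA
    | exact Pool.Agent.Lib_helper22.Robin.facet_normal hv hM hq hqc hA
    | (apply Pool.Agent.Lib_helper22.Robin.facet_normal <;> assumption)

end

end

end Pool.Agent.Lib_helper13.Robin
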