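import Pool.Agent.Lib_helper13.Robin.Geo
import Pool.Agent.Lib_helper70.Robin.Q3

/-! Robin project: block Q3 (proof by helper70), in the statement form used by the assembly. -/

namespace Pool.Agent.Lib_helper13.Robin

open MeasureTheory Set Metric Filter Topology
open scoped RealInnerProductSpace ContDiff

noncomputable section

variable {d m : ℕ} (P : PD d m)

section
variable {ι : Type} [Fintype ι] {T T' : ι → E d → ℝ}

/-- **Q3.** -/
theorem prod_of_quad {g : E d} {M : E d →ₗ[ℝ] E d} (hM : M.IsSymmetric)
    (h : ∀ i, ∀ q ∈ P.cl, P.A q = {i} → ⟪P.ν i, g - M q⟫ = -1) : IsProdCirc P.Om := by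
  first
    | exact Pool.Agent.Lib_helper70.Robin.prod_of_quad P hM h
    | exact Pool.Agent.Lib_helper70.Robin.prod_of_quad hM h
    | (apply Pool.Agent.Lib_helper70.Robin.prod_of_quad <;> assumption)

end

end

end Pool.Agent.Lib_helper13.Robin
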