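import Pool.Agent.Lib_helper13.Robin.Geo
import Pool.Agent.Lib_helper59.Robin.QL

/-! Robin project: block QL (proof by helper59), in the statement form used by the assembly. -/

namespace Pool.Agent.Lib_helper13.Robin

open MeasureTheory Set Metric Filter Topology
open scoped RealInnerProductSpace ContDiff

noncomputable section

variable {d m : ℕ} (P : PD d m)

section
variable {ι : Type} [Fintype ι] {T T' : ι → E d → ℝ}

/-- **QL.** quasi-concavity of the limit -/
theorem qc_limit (v : E d → ℝ) (hv : ContinuousOn v P.Om) (f : ℕ → E d → ℝ)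
    (hf : ∀ n t, Convex ℝ {x | x ∈ P.Om ∧ t ≤ f n x})
    (hlim : ∀ᵐ x ∂(volume.restrict P.Om), Tendsto (fun n => f n x) atTop (𝓝 (v x))) :
    QC P v := by
  first
    | exact Pool.Agent.Lib_helper59.Robin.qc_limit P v hv f hf hlim
    | exact Pool.Agent.Lib_helper59.Robin.qc_limit v hv f hf hlim
    | (apply Pool.Agent.Lib_helper59.Robin.qc_limit <;> assumption)

end

end

end Pool.Agent.Lib_helper13.Robin
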