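import Pool.Agent.Lib_helper13.Robin.Geo
import Pool.Agent.Lib_helper82.Robin.S0

/-! Robin project: block S0 (proof by helper82), in the statement form used by the assembly. -/

namespace Pool.Agent.Lib_helper13.Robin

open MeasureTheory Set Metric Filter Topology
open scoped RealInnerProductSpace ContDiff

noncomputable section

variable {d m : ℕ} (P : PD d m)

section
variable {ι : Type} [Fintype ι] {T T' : ι → E d → ℝ}

/-- **S0.** Fubini in the direction of a unit vector. -/
theorem mp_hyper (n : E d) (hn : ‖n‖ = 1) :
    MeasurePreserving (fun p : (ℝ ∙ n)ᗮ × ℝ => ((p.1 : E d) + p.2 • n)) volume volume := by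
  first
    | exact Pool.Agent.Lib_helper82.Robin.mp_hyper n hn
    | (apply Pool.Agent.Lib_helper82.Robin.mp_hyper <;> assumption)

end

end

end Pool.Agent.Lib_helper13.Robin
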