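import Pool.Agent.Lib_helper13.Robin.Geo
import Pool.Agent.Lib_helper22.Robin.SL

/-! Robin project: block SL (proof by helper22), in the statement form used by the assembly. -/

namespace Pool.Agent.Lib_helper13.Robin

open MeasureTheory Set Metric Filter Topology
open scoped RealInnerProductSpace ContDiff

noncomputable section

variable {d m : ℕ} (P : PD d m)

section
variable {ι : Type} [Fintype ι] {T T' : ι → E d → ℝ}

/-- **SL.** Smoothness of the limit (uses `weyl`) -/
theorem smooth_limit (V : E d → ℝ) (D : E d → E d)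
    (hV : MemLp V 2 (volume.restrict P.Om)) (hD : MemLp D 2 (volume.restrict P.Om))
    (hw : ∀ φ : E d → ℝ, ContinuousOn φ P.cl → ContDiffOn ℝ 1 φ P.Om →
        IntegrableOn (fun x => ‖gradient φ x‖ ^ 2) P.Om →
        ∫ x in P.Om, ⟪D x, gradient φ x⟫ = P.mu * (∫ x in P.Om, φ x) - P.bdI φ)
    (hg : ∀ φ : E d → ℝ, ContDiff ℝ ∞ φ → HasCompactSupport φ → tsupport φ ⊆ P.Om → ∀ e : E d,
        ∫ x in P.Om, V x * pd e φ x = - ∫ x in P.Om, ⟪D x, e⟫ * φ x) :
    ∃ v, LV P v ∧ ∀ᵐ x ∂(volume.restrict P.Om), v x = V x := by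
  first
    | exact Pool.Agent.Lib_helper22.Robin.smooth_limit P V D hV hD hw hg
    | exact Pool.Agent.Lib_helper22.Robin.smooth_limit V D hV hD hw hg
    | (apply Pool.Agent.Lib_helper22.Robin.smooth_limit <;> assumption)

end

end

end Pool.Agent.Lib_helper13.Robin
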