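import Pool.Agent.Lib_helper13.Robin.Geo
import Pool.Agent.Lib_helper70.Robin.SU

/-! Robin project: block SU (proof by helper70), in the statement form used by the assembly. -/

namespace Pool.Agent.Lib_helper13.Robin

open MeasureTheory Set Metric Filter Topology
open scoped RealInnerProductSpace ContDiff

noncomputable section

variable {d m : ℕ} (P : PD d m)

section
variable {ι : Type} [Fintype ι] {T T' : ι → E d → ℝ}

/-- **SU.** sup bound near points of codimension at most 2, with a constant independent of `T` -/
theorem sup_bound {p : E d} {R : ℝ} (hC : P.Con p R) (hr : P.rk p ≤ 2) :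
    ∃ C > 0, ∀ w : E d → ℝ, PP P (fun _ : Unit => w) (ball p R) →
      ∀ x ∈ P.Om ∩ ball p (R / 32), w x ^ 2 ≤ C * ∫ y in P.Om ∩ ball p (R / 2), w y ^ 2 := by
  first
    | exact Pool.Agent.Lib_helper70.Robin.sup_bound P hC hr
    | exact Pool.Agent.Lib_helper70.Robin.sup_bound hC hr
    | (apply Pool.Agent.Lib_helper70.Robin.sup_bound <;> assumption)

end

end

end Pool.Agent.Lib_helper13.Robin
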