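import Pool.Agent.Lib_helper13.Robin.Geo
import Pool.Agent.Lib_helper82.Robin.TR

/-! Robin project: block TR (proof by helper82), in the statement form used by the assembly. -/

namespace Pool.Agent.Lib_helper13.Robin

open MeasureTheory Set Metric Filter Topology
open scoped RealInnerProductSpace ContDiff

noncomputable section

variable {d m : ℕ} (P : PD d m)

section
variable {ι : Type} [Fintype ι] {T T' : ι → E d → ℝ}

/-- **TR.** trace inequality -/
theorem trace_ineq : ∃ C > 0, ∀ f : E d → ℝ, ContinuousOn f P.cl → ContDiffOn ℝ 1 f P.Om →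
    IntegrableOn (fun x => ‖gradient f x‖ ^ 2) P.Om →
    P.bdI (fun x => f x ^ 2) ≤
      C * ((∫ x in P.Om, f x ^ 2) + ∫ x in P.Om, ‖gradient f x‖ ^ 2) := by
  first
    | exact Pool.Agent.Lib_helper82.Robin.trace_ineq P
    | exact Pool.Agent.Lib_helper82.Robin.trace_ineq
    | (apply Pool.Agent.Lib_helper82.Robin.trace_ineq <;> assumption)

end

end

end Pool.Agent.Lib_helper13.Robin
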