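import Pool.Agent.Lib_helper13.Robin.Geo
import Pool.Agent.Lib_helper6.Robin.WL

/-! Robin project: block WL (proof by helper6), in the statement form used by the assembly. -/

namespace Pool.Agent.Lib_helper13.Robin

open MeasureTheory Set Metric Filter Topology
open scoped RealInnerProductSpace ContDiff

noncomputable section

variable {d m : ℕ} (P : PD d m)

section
variable {ι : Type} [Fintype ι] {T T' : ι → E d → ℝ}

/-- **WL.** bounded in `L²` + a.e. convergence implies weak convergence -/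
theorem weak_lim {α F : Type*} [MeasurableSpace α] {μ : Measure α} [IsFiniteMeasure μ]
    [NormedAddCommGroup F] [InnerProductSpace ℝ F] (f : ℕ → α → F) (f' g : α → F) (M : ℝ)
    (hm : ∀ n, AEStronglyMeasurable (f n) μ) (hi : ∀ n, Integrable (fun x => ‖f n x‖ ^ 2) μ)
    (hb : ∀ n, ∫ x, ‖f n x‖ ^ 2 ∂μ ≤ M)
    (hg : AEStronglyMeasurable g μ) (hg2 : Integrable (fun x => ‖g x‖ ^ 2) μ)
    (hlim : ∀ᵐ x ∂μ, Tendsto (fun n => f n x) atTop (𝓝 (f' x))) :
    Integrable (fun x => ‖f' x‖ ^ 2) μ ∧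
      Tendsto (fun n => ∫ x, ⟪f n x, g x⟫ ∂μ) atTop (𝓝 (∫ x, ⟪f' x, g x⟫ ∂μ)) := by
  first
    | exact Pool.Agent.Lib_helper6.Robin.weak_lim f f' g M hm hi hb hg hg2 hlim
    | (apply Pool.Agent.Lib_helper6.Robin.weak_lim <;> assumption)

end

end

end Pool.Agent.Lib_helper13.Robin
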