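import Pool.Agent.Lib_helper13.Robin.Geo
import Pool.Agent.Lib_helper34.Robin.WT

/-! Robin project: block WT (proof by helper34), in the statement form used by the assembly. -/

namespace Pool.Agent.Lib_helper13.Robin

open MeasureTheory Set Metric Filter Topology
open scoped RealInnerProductSpace ContDiff

noncomputable section

variable {d m : ℕ} (P : PD d m)

section
variable {ι : Type} [Fintype ι] {T T' : ι → E d → ℝ}

/-- **WT.** the weighted estimate for the next derivative -/
theorem weight {q : E d} {R : ℝ} (hC : P.Con q R) (hr : 3 ≤ P.rk q)
    (h : PP P T (ball q R)) :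
    ∃ r > 0, IntegrableOn (fun x => (P.rho q x)⁻¹ * gsq T x) (P.Om ∩ ball q r) := by
  first
    | exact Pool.Agent.Lib_helper34.Robin.weight P hC hr h
    | exact Pool.Agent.Lib_helper34.Robin.weight hC hr h
    | (apply Pool.Agent.Lib_helper34.Robin.weight <;> assumption)

end

end

end Pool.Agent.Lib_helper13.Robin
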