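import Pool.Agent.Lib_helper13.Robin.Geo
import Pool.Agent.Lib_helper38.Robin.XB

/-! Robin project: block XB (proof by helper38), in the statement form used by the assembly. -/

namespace Pool.Agent.Lib_helper13.Robin

open MeasureTheory Set Metric Filter Topology
open scoped RealInnerProductSpace ContDiff

noncomputable section

variable {d m : ℕ} (P : PD d m)

section
variable {ι : Type} [Fintype ι] {T T' : ι → E d → ℝ}

/-- **XB.** bounds up to the open facets, away from the edge -/
theorem nh_bounds {p : E d} {R : ℝ} {w : E d → ℝ} (hC : P.Con p R) (hr : P.rk p = 2)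
    (h : NH P (ball p R) w) {K : Set (E d)} (hK : IsCompact K) (hKs : K ⊆ ball p R)
    (hK0 : ∀ x ∈ K, P.rho p x ≠ 0) :
    ∃ C, ∀ x ∈ P.Om ∩ K, |w x| ≤ C ∧ ‖gradient w x‖ ≤ C ∧
      (∀ j k, |pd (bv k) (pd (bv j) w) x| ≤ C) ∧
      ∀ i ∈ P.A p, |⟪P.ν i, gradient w x⟫| ≤ C * (P.b i - ⟪P.ν i, x⟫) := by
  first
    | exact Pool.Agent.Lib_helper38.Robin.nh_bounds P hC hr h hK hKs hK0
    | exact Pool.Agent.Lib_helper38.Robin.nh_bounds hC hr h hK hKs hK0
    | (apply Pool.Agent.Lib_helper38.Robin.nh_bounds <;> assumption)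

end

end

end Pool.Agent.Lib_helper13.Robin
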