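import Pool.Agent.Lib_helper13.Robin.Geo
import Pool.Agent.Lib_helper13.Robin.XD

/-! Robin project: block XD (proof by helper13), in the statement form used by the assembly. -/

namespace Pool.Agent.Lib_helper13.Robin

open MeasureTheory Set Metric Filter Topology
open scoped RealInnerProductSpace ContDiff

noncomputable section

variable {d m : ℕ} (P : PD d m)

section
variable {ι : Type} [Fintype ι] {T T' : ι → E d → ℝ}

/-- **XD.** boundedness and tangential derivatives -/
theorem nh_deriv {p : E d} {R : ℝ} {w : E d → ℝ} (hC : P.Con p R) (hr : P.rk p ≤ 2)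
    (h : NH P (ball p R) w) :
    ∃ r > 0, r ≤ R ∧ (∃ C, ∀ x ∈ P.Om ∩ ball p r, |w x| ≤ C) ∧
      ∀ e ∈ (P.N p)ᗮ, NH P (ball p r) (pd e w) := by
  first
    | exact Pool.Agent.Lib_helper13.Robin.XDb.nh_deriv P hC hr h
    | exact Pool.Agent.Lib_helper13.Robin.XDb.nh_deriv hC hr h
    | (apply Pool.Agent.Lib_helper13.Robin.XDb.nh_deriv <;> assumption)

end

end

end Pool.Agent.Lib_helper13.Robin
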