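import Pool.Agent.Lib_helper13.Robin.Geo
import Pool.Agent.Lib_helper6.Robin.XF

/-! Robin project: block XF (proof by helper6), in the statement form used by the assembly. -/

namespace Pool.Agent.Lib_helper13.Robin

open MeasureTheory Set Metric Filter Topology
open scoped RealInnerProductSpace ContDiff

noncomputable section

variable {d m : ℕ} (P : PD d m)

section
variable {ι : Type} [Fintype ι] {T T' : ι → E d → ℝ}

/-- **XF.** pointwise convergence of absolutely convergent cosine series -/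
theorem cos_series {om : ℝ} (h : 0 < om) (f : ℝ → ℝ) (L : ℝ)
    (hL : ∀ x ∈ Ioo 0 om, ∀ y ∈ Ioo 0 om, |f x - f y| ≤ L * |x - y|)
    (hs : Summable fun k : ℕ => |∫ θ in (0 : ℝ)..om, f θ * Real.cos (k * (Real.pi / om) * θ)|) :
    ∀ x ∈ Ioo 0 om, f x = om⁻¹ * (∫ θ in (0 : ℝ)..om, f θ) +
      2 * om⁻¹ * ∑' k : ℕ, (∫ θ in (0 : ℝ)..om, f θ *
        Real.cos ((k + 1 : ℕ) * (Real.pi / om) * θ)) *
        Real.cos ((k + 1 : ℕ) * (Real.pi / om) * x) := by
  first
    | exact Pool.Agent.Lib_helper6.Robin.cos_series h f L hL hs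
    | (apply Pool.Agent.Lib_helper6.Robin.cos_series <;> assumption)

end

end

end Pool.Agent.Lib_helper13.Robin
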