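import Pool.Agent.Lib_helper13.Robin.Geo
import Pool.Agent.Lib_helper38.Robin.XM

/-! Robin project: block XM (proof by helper38), in the statement form used by the assembly. -/

namespace Pool.Agent.Lib_helper13.Robin

open MeasureTheory Set Metric Filter Topology
open scoped RealInnerProductSpace ContDiff

noncomputable section

variable {d m : ℕ} (P : PD d m)

section
variable {ι : Type} [Fintype ι] {T T' : ι → E d → ℝ}

/-- **XM.** the Fourier modes satisfy ODEs -/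
theorem mode_ode {p : E d} {i j : Fin m} {e1 e2 : E d} {om R : ℝ} {w g : E d → ℝ}
    (hF : Frame P p i j e1 e2 om) (hC : P.Con p R) (h : NH P (ball p R) w)
    (hg : ∀ x ∈ P.Om ∩ ball p R, pd e1 (pd e1 w) x + pd e2 (pd e2 w) x = - g x) (k : ℕ)
    {s : E d} (hs : s ∈ (P.N p)ᗮ) (hsR : ‖s‖ < R) :
    ∃ a' a'' : ℝ → ℝ, ∀ ρ ∈ Ioo 0 (R - ‖s‖),
      HasDerivAt (fun ρ => ∫ θ in (0 : ℝ)..om, w (p + s + yy e1 e2 ρ θ) *
        Real.cos (k * (Real.pi / om) * θ)) (a' ρ) ρ ∧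
      HasDerivAt a' (a'' ρ) ρ ∧
      a'' ρ + a' ρ / ρ - (k * (Real.pi / om)) ^ 2 * (∫ θ in (0 : ℝ)..om,
        w (p + s + yy e1 e2 ρ θ) * Real.cos (k * (Real.pi / om) * θ)) / ρ ^ 2 =
      - ∫ θ in (0 : ℝ)..om, g (p + s + yy e1 e2 ρ θ) * Real.cos (k * (Real.pi / om) * θ) := by
  first
    | exact Pool.Agent.Lib_helper38.Robin.mode_ode P hF hC h hg k hs hsR
    | exact Pool.Agent.Lib_helper38.Robin.mode_ode hF hC h hg k hs hsR
    | (apply Pool.Agent.Lib_helper38.Robin.mode_ode <;> assumption)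

end

end

end Pool.Agent.Lib_helper13.Robin
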