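import Pool.Agent.Lib_helper13.Robin.Geo
import Pool.Agent.Lib_helper59.Robin.XO

/-! Robin project: block XO (proof by helper59), in the statement form used by the assembly. -/

namespace Pool.Agent.Lib_helper13.Robin

open MeasureTheory Set Metric Filter Topology
open scoped RealInnerProductSpace ContDiff

noncomputable section

variable {d m : ℕ} (P : PD d m)

section
variable {ι : Type} [Fintype ι] {T T' : ι → E d → ℝ}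

/-- **XO.** ODE lemma, case `m = 0` -/
theorem ode_zero {r K M : ℝ} (hr : 0 < r) (hK : 0 ≤ K) (a a' a'' b : ℝ → ℝ)
    (h1 : ∀ ρ ∈ Ioo 0 r, HasDerivAt a (a' ρ) ρ) (h2 : ∀ ρ ∈ Ioo 0 r, HasDerivAt a' (a'' ρ) ρ)
    (h3 : ∀ ρ ∈ Ioo 0 r, a'' ρ + a' ρ / ρ = b ρ) (hb : ∀ ρ ∈ Ioo 0 r, |b ρ| ≤ K)
    (ha : ∀ ρ ∈ Ioo 0 r, |a ρ| ≤ M) :
    ∃ A, ∀ ρ ∈ Ioo 0 r, |a ρ - A| ≤ K * ρ ^ 2 := by
  first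
    | exact Pool.Agent.Lib_helper59.Robin.ode_zero hr hK a a' a'' b h1 h2 h3 hb ha
    | (apply Pool.Agent.Lib_helper59.Robin.ode_zero <;> assumption)

/-- **XO.** ODE lemma, case `m > 2 + τ` -/
theorem ode_large {r K M τ μ : ℝ} (hr : 0 < r) (hK : 0 ≤ K) (hτ : -2 < τ) (hμ : 2 + τ < μ)
    (a a' a'' b : ℝ → ℝ)
    (h1 : ∀ ρ ∈ Ioo 0 r, HasDerivAt a (a' ρ) ρ) (h2 : ∀ ρ ∈ Ioo 0 r, HasDerivAt a' (a'' ρ) ρ)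
    (h3 : ∀ ρ ∈ Ioo 0 r, a'' ρ + a' ρ / ρ - μ ^ 2 * a ρ / ρ ^ 2 = b ρ)
    (hb : ∀ ρ ∈ Ioo 0 r, |b ρ| ≤ K * ρ ^ τ)
    (ha : ∀ ρ ∈ Ioo 0 r, |a ρ| ≤ M) :
    ∀ ρ1 ∈ Ioo 0 r, ∀ ρ ∈ Ioc 0 ρ1, |a ρ| ≤ (ρ / ρ1) ^ μ * M +
      K / ((μ - 2 - τ) * (μ + 2 + τ)) * ρ ^ (2 + τ) := by
  first
    | exact Pool.Agent.Lib_helper59.Robin.ode_large hr hK hτ hμ a a' a'' b h1 h2 h3 hb ha
    | (apply Pool.Agent.Lib_helper59.Robin.ode_large <;> assumption)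

/-- **XO.** ODE lemma, case `0 < m < 2 + τ` -/
theorem ode_small {r K M τ μ : ℝ} (hr : 0 < r) (hK : 0 ≤ K) (hμ0 : 0 < μ) (hμ : μ < 2 + τ) :
    ∃ C, ∀ (a a' a'' b : ℝ → ℝ),
    (∀ ρ ∈ Ioo 0 r, HasDerivAt a (a' ρ) ρ) → (∀ ρ ∈ Ioo 0 r, HasDerivAt a' (a'' ρ) ρ) →
    (∀ ρ ∈ Ioo 0 r, a'' ρ + a' ρ / ρ - μ ^ 2 * a ρ / ρ ^ 2 = b ρ) →
    (∀ ρ ∈ Ioo 0 r, |b ρ| ≤ K * ρ ^ τ) → (∀ ρ ∈ Ioo 0 r, |a ρ| ≤ M) →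
    ∃ A, |A| ≤ C ∧ ∀ ρ ∈ Ioo 0 r, |a ρ - A * ρ ^ μ| ≤ C * ρ ^ (2 + τ) := by
  first
    | exact Pool.Agent.Lib_helper59.Robin.ode_small hr hK hμ0 hμ
    | (apply Pool.Agent.Lib_helper59.Robin.ode_small <;> assumption)

end

end

end Pool.Agent.Lib_helper13.Robin
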