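import Pool.Agent.Lib_helper13.Robin.Geo
import Pool.Agent.Lib_helper58.Robin.XE

/-! Robin project: block XE (proof by helper58), in the statement form used by the assembly. -/

namespace Pool.Agent.Lib_helper13.Robin

open MeasureTheory Set Metric Filter Topology
open scoped RealInnerProductSpace ContDiff

noncomputable section

variable {d m : ℕ} (P : PD d m)

section
variable {ι : Type} [Fintype ι] {T T' : ι → E d → ℝ}

/-- **XE.** expansion at an edge -/
theorem expansion {p : E d} {i j : Fin m} {e1 e2 : E d} {om R : ℝ} {w : E d → ℝ}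
    (hF : Frame P p i j e1 e2 om) (hC : P.Con p R) (h : NH P (ball p R) w) :
    ∃ r > 0, r < R ∧ ∃ C ≥ 0, ∀ s ∈ (P.N p)ᗮ, ‖s‖ < r → ∃ w0 c : ℝ, |w0| ≤ C ∧ |c| ≤ C ∧
      (2 ≤ Real.pi / om → c = 0) ∧ ∀ ρ ∈ Ioo 0 r, ∀ θ ∈ Ioo 0 om,
        |w (p + s + yy e1 e2 ρ θ) - w0 - c * ρ ^ (Real.pi / om) *
          Real.cos (Real.pi / om * θ)| ≤ C * ρ ^ 2 := by
  first
    | exact Pool.Agent.Lib_helper58.Robin.expansion P hF hC h
    | exact Pool.Agent.Lib_helper58.Robin.expansion hF hC h
    | (apply Pool.Agent.Lib_helper58.Robin.expansion <;> assumption)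

end

end

end Pool.Agent.Lib_helper13.Robin
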