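import Pool.Agent.Lib_helper13.Robin.Geo
import Pool.Agent.Lib_helper70.Robin.XQ

/-! Robin project: block XQ (proof by helper70), in the statement form used by the assembly. -/

namespace Pool.Agent.Lib_helper13.Robin

open MeasureTheory Set Metric Filter Topology
open scoped RealInnerProductSpace ContDiff

noncomputable section

variable {d m : ℕ} (P : PD d m)

section
variable {ι : Type} [Fintype ι] {T T' : ι → E d → ℝ}

/-- **XQ.** quasi-concavity excludes the singular term at obtuse edges -/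
theorem qc_kills {om : ℝ} (h : Real.pi / 2 < om) (hπ : om < Real.pi) {e1 e2 γ : E d}
    (n1 : ‖e1‖ = 1) (n2 : ‖e2‖ = 1) (orth : ⟪e1, e2⟫ = 0) (hγ1 : ⟪γ, e2⟫ = 1)
    (hγ2 : ⟪γ, (-Real.sin om) • e1 + Real.cos om • e2⟫ = -1) (F : E d → ℝ) (V0 c C r : ℝ)
    (hr : 0 < r)
    (hexp : ∀ ρ ∈ Ioo 0 r, ∀ θ ∈ Ioo 0 om, |F (yy e1 e2 ρ θ) - V0 - ⟪γ, yy e1 e2 ρ θ⟫ -
      c * ρ ^ (Real.pi / om) * Real.cos (Real.pi / om * θ)| ≤ C * ρ ^ 2)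
    (hcont : ContinuousOn F {z | ∃ ρ ∈ Ioo 0 r, ∃ θ ∈ Ioo 0 om, z = yy e1 e2 ρ θ})
    (hqc : ∀ x y, (∃ ρ ∈ Ioo 0 r, ∃ θ ∈ Ioo 0 om, x = yy e1 e2 ρ θ) →
      (∃ ρ ∈ Ioo 0 r, ∃ θ ∈ Ioo 0 om, y = yy e1 e2 ρ θ) →
      min (F x) (F y) ≤ F ((1 / 2 : ℝ) • x + (1 / 2 : ℝ) • y)) : c = 0 := by
  first
    | exact Pool.Agent.Lib_helper70.Robin.qc_kills h hπ n1 n2 orth hγ1 hγ2 F V0 c C r hr hexp hcont hqc
    | (apply Pool.Agent.Lib_helper70.Robin.qc_kills <;> assumption)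

end

end

end Pool.Agent.Lib_helper13.Robin
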