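import Pool.Agent.Lib_helper13.Robin.Geo
import Pool.Agent.Lib_helper34.Robin.XS

/-! Robin project: block XS (proof by helper34), in the statement form used by the assembly. -/

namespace Pool.Agent.Lib_helper13.Robin

open MeasureTheory Set Metric Filter Topology
open scoped RealInnerProductSpace ContDiff

noncomputable section

variable {d m : ℕ} (P : PD d m)

section
variable {ι : Type} [Fintype ι] {T T' : ι → E d → ℝ}

/-- **XS.** scale-invariant derivative estimates near an edge -/
theorem nh_scale {p : E d} {R : ℝ} (hC : P.Con p R) (hr : P.rk p = 2) :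
    ∃ C > 0, ∀ W : E d → ℝ, NH P (ball p R) W → ∀ x ∈ P.Om ∩ ball p (R / 4), ∀ (s : E d) (M : ℝ),
      s ∈ (P.N p)ᗮ → x - p - s ∈ P.N p →
      (∀ y ∈ P.Om ∩ ball (p + s) (2 * P.rho p x), |W y| ≤ M) →
      ‖gradient W x‖ ≤ C * M / P.rho p x ∧
      ∀ j k, |pd (bv k) (pd (bv j) W) x| ≤ C * M / P.rho p x ^ 2 := by
  first
    | exact Pool.Agent.Lib_helper34.Robin.nh_scale P hC hr
    | exact Pool.Agent.Lib_helper34.Robin.nh_scale hC hr
    | (apply Pool.Agent.Lib_helper34.Robin.nh_scale <;> assumption)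

end

end

end Pool.Agent.Lib_helper13.Robin
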