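import Pool.Agent.Lib_helper13.Robin.Geo
import Pool.Agent.Lib_helper61.Robin.XH

/-! Robin project: block XH (proof by helper61), in the statement form used by the assembly. -/

namespace Pool.Agent.Lib_helper13.Robin

open MeasureTheory Set Metric Filter Topology
open scoped RealInnerProductSpace ContDiff

noncomputable section

variable {d m : ℕ} (P : PD d m)

section
variable {ι : Type} [Fintype ι] {T T' : ι → E d → ℝ}

/-- **XH.** first and second derivatives of `v` are bounded near the edges -/
theorem edge_bound {v : E d → ℝ} (hv : LV P v) (hq : QC P v) {q : E d} (hqc : q ∈ P.cl)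
    (hr : P.rk q = 2) : ∃ r > 0, ∃ C, ∀ x ∈ P.Om ∩ ball q r,
      (∀ j, |pd (bv j) v x| ≤ C) ∧ ∀ j k, |pd (bv k) (pd (bv j) v) x| ≤ C := by
  first
    | exact Pool.Agent.Lib_helper61.Robin.edge_bound P hv hq hqc hr
    | exact Pool.Agent.Lib_helper61.Robin.edge_bound hv hq hqc hr
    | (apply Pool.Agent.Lib_helper61.Robin.edge_bound <;> assumption)

end

end

end Pool.Agent.Lib_helper13.Robin
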