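import Pool.Agent.Lib_helper13.Robin.Geo
import Pool.Agent.Lib_helper70.Robin.Z1

/-! Robin project: block Z1 (proof by helper70), in the statement form used by the assembly. -/

namespace Pool.Agent.Lib_helper13.Robin

open MeasureTheory Set Metric Filter Topology
open scoped RealInnerProductSpace ContDiff

noncomputable section

variable {d m : ℕ} (P : PD d m)

section
variable {ι : Type} [Fintype ι] {T T' : ι → E d → ℝ}

/-- **Z1.** every presentation with consistent normals contains an irredundant one -/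
theorem exists_pd (hd : 3 ≤ d) (ν : Fin m → E d) (b : Fin m → ℝ) (hν : ∀ i, ‖ν i‖ = 1)
    (hb : Bornology.IsBounded {x : E d | ∀ i, ⟪ν i, x⟫ < b i})
    (hne : {x : E d | ∀ i, ⟪ν i, x⟫ < b i}.Nonempty)
    (hc : ∀ x : E d, (∀ i, ⟪ν i, x⟫ ≤ b i) →
      ∃ γ : E d, ∀ i, ⟪ν i, x⟫ = b i → ⟪ν i, γ⟫ = -1) :
    ∃ (m' : ℕ) (P : PD d m'), P.Om = {x : E d | ∀ i, ⟪ν i, x⟫ < b i} := by
  first
    | exact Pool.Agent.Lib_helper70.Robin.exists_pd P hd ν b hν hb hne hc
    | exact Pool.Agent.Lib_helper70.Robin.exists_pd hd ν b hν hb hne hc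
    | (apply Pool.Agent.Lib_helper70.Robin.exists_pd <;> assumption)

end

end

end Pool.Agent.Lib_helper13.Robin
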