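import Pool.Agent.Lib_helper13.Robin.Geo
import Pool.Agent.Lib_helper13.Robin.BA

/-! Robin project: block BA (proof by helper13), in the statement form used by the assembly. -/

namespace Pool.Agent.Lib_helper13.Robin

open MeasureTheory Set Metric Filter Topology
open scoped RealInnerProductSpace ContDiff

noncomputable section

variable {d m : ℕ} (P : PD d m)

section
variable {ι : Type} [Fintype ι] {T T' : ι → E d → ℝ}

/-- **BA.** interior points and facets -/
theorem pp_base {V : Set (E d)} (hV : IsOpen V) (h : EF P T V) {q : E d} (hq : q ∈ V)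
    (hqc : q ∈ P.cl) (hr : P.rk q ≤ 1) : ∃ r > 0, PP P T (ball q r) := by
  first
    | exact Pool.Agent.Lib_helper13.Robin.BAb.pp_base P hV h hq hqc hr
    | exact Pool.Agent.Lib_helper13.Robin.BAb.pp_base hV h hq hqc hr
    | (apply Pool.Agent.Lib_helper13.Robin.BAb.pp_base <;> assumption)

end

end

end Pool.Agent.Lib_helper13.Robin
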