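import Pool.Agent.Lib_helper13.Robin.Geo
import Pool.Agent.Lib_helper61.Robin.LB

/-! Robin project: block LB (proof by helper61), in the statement form used by the assembly. -/

namespace Pool.Agent.Lib_helper13.Robin

open MeasureTheory Set Metric Filter Topology
open scoped RealInnerProductSpace ContDiff

noncomputable section

variable {d m : ℕ} (P : PD d m)

section
variable {ι : Type} [Fintype ι] {T T' : ι → E d → ℝ}

/-- **LB.** -/
theorem lam_bound {α lam : ℝ} {u : E d → ℝ} (hα : 0 < α) (h : RGS P.Om α lam u) :
    0 ≤ lam ∧ lam ≤ P.mu * α := by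
  first
    | exact Pool.Agent.Lib_helper61.Robin.lam_bound P hα h
    | exact Pool.Agent.Lib_helper61.Robin.lam_bound hα h
    | (apply Pool.Agent.Lib_helper61.Robin.lam_bound <;> assumption)

end

end

end Pool.Agent.Lib_helper13.Robin
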