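import Pool.Agent.Lib_helper13.Robin.Geo
import Pool.Agent.Lib_helper38.Robin.Q1

/-! Robin project: block Q1 (proof by helper38), in the statement form used by the assembly. -/

namespace Pool.Agent.Lib_helper13.Robin

open MeasureTheory Set Metric Filter Topology
open scoped RealInnerProductSpace ContDiff

noncomputable section

variable {d m : ℕ} (P : PD d m)

section
variable {ι : Type} [Fintype ι] {T T' : ι → E d → ℝ}

/-- **Q1.** -/
theorem quad_of_third {v : E d → ℝ} (hv : ContDiffOn ℝ ∞ v P.Om)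
    (h : ∀ x ∈ P.Om, ∀ j k, gradient (pd (bv k) (pd (bv j) v)) x = 0) :
    ∃ (c : ℝ) (g : E d) (M : E d →ₗ[ℝ] E d), M.IsSymmetric ∧
      ∀ x ∈ P.Om, v x = c + ⟪g, x⟫ - (1 / 2) * ⟪M x, x⟫ := by
  first
    | exact Pool.Agent.Lib_helper38.Robin.quad_of_third P hv h
    | exact Pool.Agent.Lib_helper38.Robin.quad_of_third hv h
    | (apply Pool.Agent.Lib_helper38.Robin.quad_of_third <;> assumption)

end

end

end Pool.Agent.Lib_helper13.Robin
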